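import Pool.Agent.H126U.Joint2

/-!
# Sato–Tate averages of compatible families: quadratic twists and quadratic base change

`(ρ_l)` is a strictly compatible family over a number field `K`, pure of odd weight, with Sato–Tate
group `ST_K` and Frobenius classes `x_v` in the set `C` of conjugacy classes of `ST_K`; the classes
are given in the theorem as an arbitrary map `x` from the primes of `K` to a set `C`.

* The quadratic twist `ρ ⊗ χ_d` is a family of the same kind, with classes `χ_d(v) x_v`.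
* The restriction of `ρ` to `K(√d)` is a family of the same kind.  Above a prime `v` of `K` with
  `χ_d(v) = 1` there are two primes of `K(√d)`, of norm `N v` and with class `x_v`; above a prime `v`
  with `χ_d(v) = -1` there is one, of norm `N v ^ 2` and with the class `x_v ^ 2`.
* For `d` outside finitely many square classes the Sato–Tate groups of `ρ ⊗ χ_d` (since the weight is
  odd, `-1 ∈ ST_K`) and of the restriction of `ρ` to `K(√d)` are the same as that of `ρ`; and the
  quadratic symbols `χ_{d_1}(v), …, χ_{d_r}(v)` are expected to be independent of `x_v`.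
-/

set_option autoImplicit false

namespace Pool.Agent.Results.MP_4c4ce6_nt.TwistsAndBaseChange

open NumberField IsDedekindDomain Filter Topology

variable {K : Type} [Field K] [NumberField K]

open Classical in
/-- The quadratic symbol `χ_d(v)`; for `v` prime to `2d` it is `1` if `v` splits in `K(√d)` and `-1` if
`v` is inert. -/
noncomputable def χ (d : 𝓞 K) (v : HeightOneSpectrum (𝓞 K)) : ℤˣ :=
  if d ∉ v.asIdeal ∧ IsSquare (Ideal.Quotient.mk v.asIdeal d) then 1 else -1

/-- The average of `φ` over the primes `v` of `K` outside `S` of norm at most `X`. -/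
noncomputable def average (S : Finset (HeightOneSpectrum (𝓞 K))) (X : ℕ)
    (φ : HeightOneSpectrum (𝓞 K) → ℝ) : ℝ :=
  (∑ᶠ v ∈ {v : HeightOneSpectrum (𝓞 K) | v ∉ S ∧ Ideal.absNorm v.asIdeal ≤ X}, φ v) /
    ({v : HeightOneSpectrum (𝓞 K) | v ∉ S ∧ Ideal.absNorm v.asIdeal ≤ X}.ncard : ℝ)

/-- The primes `v` of `K` outside `S` that split in `K(√d)` and have norm at most `X`. -/
def split (S : Finset (HeightOneSpectrum (𝓞 K))) (d : 𝓞 K) (X : ℕ) :
    Set (HeightOneSpectrum (𝓞 K)) :=
  {v | v ∉ S ∧ χ d v = 1 ∧ Ideal.absNorm v.asIdeal ≤ X}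

/-- The primes `v` of `K` outside `S` that are inert in `K(√d)` and have `N v ^ 2 ≤ X`. -/
def inert (S : Finset (HeightOneSpectrum (𝓞 K))) (d : 𝓞 K) (X : ℕ) :
    Set (HeightOneSpectrum (𝓞 K)) :=
  {v | v ∉ S ∧ χ d v = -1 ∧ Ideal.absNorm v.asIdeal ^ 2 ≤ X}

/-- The average over the primes of `K(√d)` of norm at most `X` which do not lie above a prime of `S`,
of a function with value `φ v` at the two primes above a split prime `v` and with value `ψ v` at the
prime above an inert prime `v`. -/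
noncomputable def quadAverage (S : Finset (HeightOneSpectrum (𝓞 K))) (d : 𝓞 K) (X : ℕ)
    (φ ψ : HeightOneSpectrum (𝓞 K) → ℝ) : ℝ :=
  (2 * ∑ᶠ v ∈ split S d X, φ v + ∑ᶠ v ∈ inert S d X, ψ v) /
    (2 * ((split S d X).ncard : ℝ) + ((inert S d X).ncard : ℝ))

/-- The functions `Δ k`, `k ∈ κ`, have mean square at most `c`:

1. for all finite `T ⊆ κ` and `η > 0`, `∑_{k ∈ T} Δ_k(X)² ≤ c + η` for all large `X`;
2. for all finite `T ⊆ κ` and `δ > 0`, for all large `X` at most `c / δ²` of the `k ∈ T` have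
`|Δ_k(X)| ≥ δ`;
3. if all `Δ_k(X)` converge, to `ℓ_k`, then `∑_{k ∈ κ} ℓ_k² ≤ c`. -/
def MeanSquare {κ : Type} (Δ : κ → ℕ → ℝ) (c : ℝ) : Prop :=
  (∀ (T : Finset κ) (η : ℝ), 0 < η → ∀ᶠ X : ℕ in atTop, ∑ k ∈ T, Δ k X ^ 2 ≤ c + η) ∧
  (∀ (T : Finset κ) (δ : ℝ), 0 < δ → ∀ᶠ X : ℕ in atTop,
    ({k : κ | k ∈ T ∧ δ ≤ |Δ k X|}.ncard : ℝ) ≤ c / δ ^ 2) ∧
  (∀ ℓ : κ → ℝ, (∀ k, Tendsto (Δ k) atTop (𝓝 (ℓ k))) →
    Summable (fun k => ℓ k ^ 2) ∧ ∑' k, ℓ k ^ 2 ≤ c)

theorem MeanSquare.of_first {κ : Type} {Δ : κ → ℕ → ℝ} {c : ℝ}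
    (h : ∀ (T : Finset κ) (η : ℝ), 0 < η → ∀ᶠ X : ℕ in atTop, ∑ k ∈ T, Δ k X ^ 2 ≤ c + η) :
    MeanSquare Δ c := by
  classical
  refine ⟨h, fun T δ hδ => ?_, fun ℓ hℓ => Pool.Agent.H126U.JT.limits Δ h ℓ hℓ⟩
  filter_upwards [Pool.Agent.H126U.ST.count_of_sum T (fun X k => Δ k X) (h T) hδ] with X hX
  rw [le_div_iff₀ (by positivity)]
  have hset : {k : κ | k ∈ T ∧ δ ≤ |Δ k X|} =
      ((T.filter fun k => δ ≤ |Δ k X| : Finset κ) : Set κ) := by
    ext k
    simp
  rw [hset, Set.ncard_coe_finset]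
  exact hX

/-- **Sato–Tate averages under quadratic twist and quadratic base change.**  Let `x` be the map from
the primes `v` of `K` to the set `C` of classes.  The index set `κ` may be infinite; `S k` is a finite
set of primes containing the divisors of `2 d_k` (and the bad primes).

A. (Splitting in multiquadratic extensions.)  Let `d k = (d_1, …, d_r)` be vectors of nonzero integers
of `K` such that for `k ≠ l` and every nonempty set `A` of indices the product of the `d_j(k) d_j(l)`
over `j ∈ A` is not a square in `K`.  Then for every `G` with `|G| ≤ b` the differences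
`average G(x_v; χ_{d_1(k)}(v), …, χ_{d_r(k)}(v)) - average 2^{-r} ∑_s G(x_v; s)`, `k ∈ κ`, have mean
square at most `(2^r - 1) b²`.

B. (Twists.)  Let the `d k` be nonzero and such that `d_k d_l` is not a square for `k ≠ l`.  Then for
every function `f` on `C` with `|f| ≤ b` the differences
`average f(χ_{d_k}(v) x_v) - average (f(x_v) + f(- x_v)) / 2` have mean square at most `b²`.

C. (Base change.)  If moreover the `d k` are not squares, then the differences of the averages of `f` over
the primes of `K(√d_k)` and over the primes of `K` have mean square at most `b²`. -/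
theorem result (K : Type) [Field K] [NumberField K] (C : Type) (x : HeightOneSpectrum (𝓞 K) → C)
    (κ : Type) (S : κ → Finset (HeightOneSpectrum (𝓞 K))) (b : ℝ) :
    (∀ (r : ℕ) (d : κ → Fin r → 𝓞 K), (∀ k j, d k j ≠ 0) →
      (∀ k l, k ≠ l → ∀ A : Finset (Fin r), A.Nonempty →
        ¬ IsSquare ((∏ j ∈ A, (d k j * d l j) : 𝓞 K) : K)) →
      (∀ k v, v ∉ S k → ∀ j, 2 * d k j ∉ v.asIdeal) →
      ∀ G : C → (Fin r → ℤˣ) → ℝ, (∀ c s, |G c s| ≤ b) →
        MeanSquare (fun k X => average (S k) X (fun v => G (x v) (fun j => χ (d k j) v)) -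
          average (S k) X (fun v => (1 / 2 ^ r : ℝ) * ∑ s, G (x v) s)) ((2 ^ r - 1) * b ^ 2)) ∧
    (∀ d : κ → 𝓞 K, (∀ k, d k ≠ 0) → (∀ k l, k ≠ l → ¬ IsSquare ((d k * d l : 𝓞 K) : K)) →
      (∀ k v, v ∉ S k → 2 * d k ∉ v.asIdeal) →
      ∀ f : C → ℝ, (∀ c, |f c| ≤ b) →
        (∀ neg : C → C, MeanSquare (fun k X =>
          average (S k) X (fun v => f (if χ (d k) v = 1 then x v else neg (x v))) -
            average (S k) X (fun v => (f (x v) + f (neg (x v))) / 2)) (b ^ 2)) ∧
        ((∀ k, ¬ IsSquare (d k : K)) → ∀ square : C → C, MeanSquare (fun k X =>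
          quadAverage (S k) (d k) X (fun v => f (x v)) (fun v => f (square (x v))) -
            average (S k) X (fun v => f (x v))) (b ^ 2))) := by
  classical
  have hav : ∀ (S : Finset (HeightOneSpectrum (𝓞 K))) (X : ℕ)
      (φ : HeightOneSpectrum (𝓞 K) → ℝ),
      average S X φ = Pool.Agent.H126U.ST.mn (Pool.Agent.H126U.ST.VS S X) φ := by
    intro S X φ
    have hset : {v : HeightOneSpectrum (𝓞 K) | v ∉ S ∧ Ideal.absNorm v.asIdeal ≤ X} =
        ((Pool.Agent.H126U.ST.VS S X : Finset (HeightOneSpectrum (𝓞 K))) :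
          Set (HeightOneSpectrum (𝓞 K))) := by
      ext v
      have h1 : v ∈ Pool.Agent.H126U.VX K X ↔ Ideal.absNorm v.asIdeal ≤ X :=
        Pool.Agent.H126U.mem_VX K
      simp only [Pool.Agent.H126U.ST.VS, Finset.coe_filter, h1, Set.mem_ofPred_eq]
      exact and_comm
    unfold average Pool.Agent.H126U.ST.mn
    rw [hset, finsum_mem_coe_finset, Set.ncard_coe_finset]
  have hchi : ∀ (d : 𝓞 K) (v : HeightOneSpectrum (𝓞 K)),
      (d ∉ v.asIdeal ∧ IsSquare (Ideal.Quotient.mk v.asIdeal d)) ↔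
        Pool.Agent.H341R2.chi d v = 1 := by
    intro d v
    unfold Pool.Agent.H341R2.chi
    rw [quadraticChar_apply]
    unfold quadraticCharFun
    have h1 : Ideal.Quotient.mk v.asIdeal d = 0 ↔ d ∈ v.asIdeal := Ideal.Quotient.eq_zero_iff_mem
    by_cases h : d ∈ v.asIdeal
    · rw [if_pos (h1.2 h)]
      simp [h]
    · rw [if_neg (fun h2 => h (h1.1 h2))]
      by_cases h3 : IsSquare (Ideal.Quotient.mk v.asIdeal d)
      · simp [h, h3]
      · simp [h3]
  have hχ : ∀ (r : ℕ) (d : Fin r → 𝓞 K) (v : HeightOneSpectrum (𝓞 K)),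
      (fun j => χ (d j) v) = Pool.Agent.H126U.ST.sgn d v := by
    intro r d v
    funext j
    unfold χ Pool.Agent.H126U.ST.sgn
    by_cases h : Pool.Agent.H341R2.chi (d j) v = 1
    · rw [if_pos ((hchi _ _).2 h), if_pos h]
    · rw [if_neg (fun h2 => h ((hchi _ _).1 h2)), if_neg h]
  have hft : ∀ (r : ℕ) (g : (Fin r → ℤˣ) → ℝ),
      (1 / 2 ^ r : ℝ) * ∑ s, g s = Pool.Agent.H126U.ST.ft g ∅ := by
    intro r g
    unfold Pool.Agent.H126U.ST.ft
    congr 1
    refine Finset.sum_congr rfl fun s _ => ?_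
    have : Pool.Agent.H126U.ST.sg s ∅ = 1 := Finset.prod_empty
    rw [this, one_mul]
  have hA : ∀ (r : ℕ) (d : κ → Fin r → 𝓞 K), (∀ k j, d k j ≠ 0) →
      (∀ k l, k ≠ l → ∀ A : Finset (Fin r), A.Nonempty →
        ¬ IsSquare ((∏ j ∈ A, (d k j * d l j) : 𝓞 K) : K)) →
      (∀ k v, v ∉ S k → ∀ j, 2 * d k j ∉ v.asIdeal) →
      ∀ G : C → (Fin r → ℤˣ) → ℝ, (∀ c s, |G c s| ≤ b) →
        MeanSquare (fun k X => average (S k) X (fun v => G (x v) (fun j => χ (d k j) v)) -
          average (S k) X (fun v => (1 / 2 ^ r : ℝ) * ∑ s, G (x v) s)) ((2 ^ r - 1) * b ^ 2) := by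
    intro r d hd0 hsep hS G hG
    refine MeanSquare.of_first fun T η hη => ?_
    simp only [hav, hχ, hft]
    exact Pool.Agent.H126U.JT.joint d hsep hd0 S
      (fun k v hv j h => hS k v hv j (v.asIdeal.mul_mem_left _ h))
      (fun v => G (x v)) b (fun v s => hG _ _) T η hη
  refine ⟨hA, fun d hd0 hsep hS f hf => ⟨fun neg => ?_, fun hns square => ?_⟩⟩
  · have h1 := hA 1 (fun k _ => d k) (fun k _ => hd0 k) (fun k l hkl A hAn => ?_)
      (fun k v hv _ => hS k v hv) (fun c s => f (if s 0 = 1 then c else neg c)) (fun c s => hf _)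
    · have h2 : ((2 : ℝ) ^ 1 - 1) * b ^ 2 = b ^ 2 := by ring
      rw [h2] at h1
      have h3 : ∀ c : C, (1 / 2 ^ 1 : ℝ) * ∑ s : Fin 1 → ℤˣ, f (if s 0 = 1 then c else neg c) =
          (f c + f (neg c)) / 2 := by
        intro c
        rw [← Equiv.sum_comp (Equiv.funUnique (Fin 1) ℤˣ).symm
          (fun s : Fin 1 → ℤˣ => f (if s 0 = 1 then c else neg c))]
        have h4 : ∑ i : ℤˣ, f (if ((Equiv.funUnique (Fin 1) ℤˣ).symm i) 0 = 1 then c else neg c) =
            f c + f (neg c) := by
          have h5 : (Finset.univ : Finset ℤˣ) = {1, -1} := rfl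
          rw [h5, Finset.sum_pair (by decide)]
          rfl
        rw [h4]
        ring
      simp only [h3] at h1
      exact h1
    · obtain ⟨a, ha⟩ := hAn
      have hA1 : A = {0} := by
        ext i
        have : i = 0 := Subsingleton.elim _ _
        subst this
        have : a = 0 := Subsingleton.elim _ _
        subst this
        simp [ha]
      rw [hA1, Finset.prod_singleton]
      exact hsep k l hkl
  · refine MeanSquare.of_first fun T η hη => ?_
    have hquad : ∀ (S : Finset (HeightOneSpectrum (𝓞 K))) (d : 𝓞 K),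
        (∀ v, v ∉ S → d ∉ v.asIdeal) → ∀ (X : ℕ)
        (φ ψ : HeightOneSpectrum (𝓞 K) → ℝ),
        quadAverage S d X φ ψ = Pool.Agent.H126U.JT.avL S d X φ ψ := by
      intro S d hSd X φ ψ
      have hs1 : split S d X = ((Pool.Agent.H126U.JT.Sp S d X :
          Finset (HeightOneSpectrum (𝓞 K))) : Set (HeightOneSpectrum (𝓞 K))) := by
        ext v
        have h1 : v ∈ Pool.Agent.H126U.VX K X ↔ Ideal.absNorm v.asIdeal ≤ X :=
          Pool.Agent.H126U.mem_VX K
        have h2 : χ d v = 1 ↔ Pool.Agent.H341R2.chi d v = 1 := by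
          rw [← hchi]
          unfold χ
          by_cases h : d ∉ v.asIdeal ∧ IsSquare (Ideal.Quotient.mk v.asIdeal d)
          · simp only [if_pos h, h, true_iff]
            trivial
          · rw [if_neg h]
            exact ⟨fun h3 => absurd h3 (by decide), fun h3 => absurd h3 h⟩
        simp only [split, Pool.Agent.H126U.JT.Sp, Pool.Agent.H126U.ST.VS, Finset.coe_filter,
          Finset.mem_filter, h1, h2, Set.mem_ofPred_eq]
        tauto
      have hs2 : inert S d X = ((Pool.Agent.H126U.JT.In S d X :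
          Finset (HeightOneSpectrum (𝓞 K))) : Set (HeightOneSpectrum (𝓞 K))) := by
        ext v
        have h1 : v ∈ Pool.Agent.H126U.VX K X ↔ Ideal.absNorm v.asIdeal ≤ X :=
          Pool.Agent.H126U.mem_VX K
        have h2 : v ∉ S → (χ d v = -1 ↔ Pool.Agent.H341R2.chi d v = -1) := by
          intro hv
          have h3 := hchi d v
          unfold χ
          rcases quadraticChar_dichotomy (Pool.Agent.H341R2.EC.mk_ne (hSd v hv)) with h4 | h4
          · have h5 : Pool.Agent.H341R2.chi d v = 1 := h4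
            rw [if_pos (h3.2 h5), h5]
            decide
          · have h5 : Pool.Agent.H341R2.chi d v = -1 := h4
            rw [if_neg (fun h6 => by rw [h3.1 h6] at h5; exact absurd h5 (by decide)), h5]
            simp
        have h6 : (Ideal.absNorm v.asIdeal) ^ 2 ≤ X → Ideal.absNorm v.asIdeal ≤ X := by
          intro h
          refine le_trans ?_ h
          exact Nat.le_self_pow (by norm_num) _
        simp only [inert, Pool.Agent.H126U.JT.In, Pool.Agent.H126U.ST.VS, Finset.coe_filter,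
          Finset.mem_filter, h1, Set.mem_ofPred_eq]
        constructor
        · rintro ⟨h7, h8, h9⟩
          exact ⟨⟨h6 h9, h7⟩, (h2 h7).1 h8, h9⟩
        · rintro ⟨⟨_, h7⟩, h8, h9⟩
          exact ⟨h7, (h2 h7).2 h8, h9⟩
      unfold quadAverage Pool.Agent.H126U.JT.avL
      rw [hs1, hs2, finsum_mem_coe_finset, finsum_mem_coe_finset, Set.ncard_coe_finset,
        Set.ncard_coe_finset]
    have hSd : ∀ k v, v ∉ S k → d k ∉ v.asIdeal := fun k v hv h =>
      hS k v hv (v.asIdeal.mul_mem_left _ h)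
    simp only [hav, fun k X φ ψ => hquad (S k) (d k) (hSd k) X φ ψ]
    exact Pool.Agent.H126U.JT.baseChange d hsep hns hd0 S hSd (fun v => f (x v))
      (fun v => f (square (x v))) b (fun v => hf _) (fun v => hf _) T η hη

end Pool.Agent.Results.MP_4c4ce6_nt.TwistsAndBaseChange
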